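import Pool.Agent.H57.RED.Done

/-!
# The maximum crossing number is not monotone under taking subgraphs
-/

set_option autoImplicit false

namespace Pool.Agent.Results.MP_ffb5eb_co.NotMonotone

open Pool.MCR

/-- There are a finite graph `G`, a subgraph `H` of `G` on the same vertex set and a topological
drawing `D` of `H` that has more crossings than every topological drawing of `G`; and `G` has
a topological drawing. -/
theorem result : ∃ (V : Type) (_ : Finite V) (G H : SimpleGraph V) (D : Drawing H),
    H ≤ G ∧ Nonempty (Drawing G) ∧ ∀ D' : Drawing G, D'.cr < D.cr :=
  Pool.MCR.Red.done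

end Pool.Agent.Results.MP_ffb5eb_co.NotMonotone
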