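import Pool.Agent.H88.MCR.Asm2

/-!
# Maximum crossing number: subgraphs with at most one cycle
-/

set_option autoImplicit false

namespace Pool.Agent.Results.MP_ffb5eb_co.OneCycle

open Pool.MCR

/-- Let `F` be a finite graph that is a forest, or becomes a forest after deleting one edge and
has no cycle of length 4.  If the finite graph `G` contains a copy of `F` as a subgraph, then for
every topological drawing `D` of `F` there is a topological drawing `D'` of `G` with at least as
many crossings. -/
theorem result (W V : Type) [Finite W] [Finite V] (F : SimpleGraph W) (G : SimpleGraph V)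
    (φ : W → V) (hφ : Function.Injective φ) (hFG : ∀ a b, F.Adj a b → G.Adj (φ a) (φ b))
    (hF : F.IsAcyclic ∨ ∃ e ∈ F.edgeSet, (F.deleteEdges {e}).IsAcyclic ∧
      ∀ (v : W) (c : F.Walk v v), c.IsCycle → c.length ≠ 4)
    (D : Drawing F) : ∃ D' : Drawing G, D.cr ≤ D'.cr := by
  classical
  have : Fintype W := Fintype.ofFinite W
  have : Fintype V := Fintype.ofFinite V
  obtain ⟨⟨D', hD'⟩, -, -⟩ := fi2_done W V F G φ hF hφ hFG
  exact ⟨D', (upb_thm W F D).2.trans (indep_le_cr F G φ hφ hFG D' hD')⟩

end Pool.Agent.Results.MP_ffb5eb_co.OneCycle
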